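import Pool.Agent.Helper34.PU.Goals

set_option autoImplicit false

open Finset
open scoped Classical

namespace Pool.Agent.Helper50.PU

open Pool.Agent.Helper34.PU

/-- the invariant of the outer induction -/
def Inv {l M : ℕ} (M1 β : ℕ) (G : (j : ℕ) → Finset (Fin j → Fin M)) {E Y V : Type} [Fintype V]
    (slot : Fin l → E → Y) (e : V → E) (act : V → Finset (Fin l)) (j : ℕ) (hj : j ≤ l)
    (b : Fin l → Y → Fin M) : Prop :=
  (∀ ed, (fun i : Fin j => b (Fin.castLE hj i) (slot (Fin.castLE hj i) ed)) ∈ G j) ∧
  ∀ v, (univ.filter (fun w => act w = act v ∧ ∀ i ∈ act v, i.val < j →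
    b i (slot i (e w)) = b i (slot i (e v)))).card ≤
      M1 ^ (β - ((act v).filter (fun i => i.val < j)).card)

lemma filter_succ {l : ℕ} (A : Finset (Fin l)) (j : ℕ) (h : j < l) (hj : (⟨j, h⟩ : Fin l) ∈ A) :
    (A.filter (fun i => i.val < j + 1)).card = (A.filter (fun i => i.val < j)).card + 1 := by
  have h1 : A.filter (fun i => i.val < j + 1) =
      insert (⟨j, h⟩ : Fin l) (A.filter (fun i => i.val < j)) := by
    ext i
    simp only [mem_filter, mem_insert, Fin.ext_iff]
    constructor
    · rintro ⟨hi, h2⟩
      by_cases h3 : i.val = j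
      · left; exact h3
      · right; exact ⟨hi, by omega⟩
    · rintro (h2 | ⟨hi, h2⟩)
      · refine ⟨?_, by omega⟩
        have : i = ⟨j, h⟩ := Fin.ext h2
        rw [this]; exact hj
      · exact ⟨hi, by omega⟩
  rw [h1, card_insert_of_notMem]
  simp

lemma filter_succ' {l : ℕ} (A : Finset (Fin l)) (j : ℕ) (h : j < l) (hj : (⟨j, h⟩ : Fin l) ∉ A) :
    A.filter (fun i => i.val < j + 1) = A.filter (fun i => i.val < j) := by
  ext i
  simp only [mem_filter]
  constructor
  · rintro ⟨hi, h2⟩
    refine ⟨hi, ?_⟩
    by_contra h3
    have : i = ⟨j, h⟩ := Fin.ext (by simp; omega)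
    exact hj (this ▸ hi)
  · rintro ⟨hi, h2⟩
    exact ⟨hi, by omega⟩

theorem step {l M d K M1 β : ℕ} {κ : ℝ} {G : (j : ℕ) → Finset (Fin j → Fin M)}
    (hN : Nest l M d κ G) (hK : (K : ℝ) * M1 < κ)
    (E Y V : Type) [Fintype E] [Fintype Y] [Fintype V] (slot : Fin l → E → Y) (e : V → E)
    (act : V → Finset (Fin l))
    (hd : ∀ j y, (univ.filter (fun ed => slot j ed = y)).card ≤ d) (hact : ∀ v, (act v).card = β)
    (hV : Fintype.card V ≤ M1 ^ β)
    (hKc : ∀ j y, (univ.filter (fun v => j ∈ act v ∧ slot j (e v) = y)).card ≤ K)
    (hsl : ∀ j v w, v ≠ w → j ∈ act v → act v = act w → slot j (e v) ≠ slot j (e w))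
    (j : ℕ) (hj : j + 1 ≤ l) (b : Fin l → Y → Fin M)
    (hb : Inv M1 β G slot e act j (by omega) b) :
    ∃ b' : Fin l → Y → Fin M, Inv M1 β G slot e act (j + 1) hj b' := by
  obtain ⟨hI1, hI2⟩ := hb
  set jj : Fin l := ⟨j, hj⟩ with hjj
  -- same prefix relation
  let sp : V → V → Prop := fun w v => act w = act v ∧ ∀ i ∈ act v, i.val < j →
    b i (slot i (e w)) = b i (slot i (e v))
  have sp_trans : ∀ {u v w}, sp u v → sp v w → sp u w := by
    intro u v w h1 h2
    refine ⟨h1.1.trans h2.1, fun i hi hij => ?_⟩
    rw [h1.2 i (by rw [h2.1]; exact hi) hij, h2.2 i hi hij]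
  have sp_symm : ∀ {v w}, sp v w → sp w v := by
    intro v w h1
    refine ⟨h1.1.symm, fun i hi hij => ?_⟩
    rw [h1.2 i (by rw [← h1.1]; exact hi) hij]
  let nn : V → ℕ := fun v => ((act v).filter (fun i => i.val < j)).card
  have nn_eq : ∀ {v w}, act v = act w → nn v = nn w := by
    intro v w h
    simp only [nn, h]
  let pre : E → (Fin j → Fin M) := fun ed =>
    fun i : Fin j => b (Fin.castLE (by omega) i) (slot (Fin.castLE (by omega) i) ed)
  have hnn : ∀ v, jj ∈ act v → nn v + 1 ≤ β := by
    intro v hv
    have h1 := filter_succ (act v) j hj hv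
    have h2 := card_filter_le (act v) (fun i => i.val < j + 1)
    rw [hact v] at h2
    simp only [nn]
    omega
  have hM1 : ∀ v : V, jj ∈ act v → 1 ≤ M1 := by
    intro v hv
    by_contra h
    have h0 : M1 = 0 := by omega
    have h1 : β ≠ 0 := by have := hnn v hv; omega
    rw [h0, zero_pow h1] at hV
    have : 0 < Fintype.card V := Fintype.card_pos_iff.2 ⟨v⟩
    omega
  -- inner induction
  have inner : ∀ Y' : Finset Y, ∃ c : Y → Fin M,
      (∀ ed, slot jj ed ∈ Y' → (Fin.snoc (pre ed) (c (slot jj ed)) : Fin (j + 1) → Fin M) ∈ G (j + 1)) ∧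
      ∀ v, jj ∈ act v → ∀ a, (univ.filter (fun w => sp w v ∧ slot jj (e w) ∈ Y' ∧
        c (slot jj (e w)) = a)).card ≤ M1 ^ (β - nn v - 1) := by
    intro Y'
    induction Y' using Finset.induction_on with
    | empty =>
      refine ⟨b jj, fun ed h => absurd h (notMem_empty _), fun v hv a => ?_⟩
      rw [filter_false_of_mem]
      · simp
      · intro w _ h
        exact absurd h.2.1 (notMem_empty _)
    | insert y Y' hy ih =>
      obtain ⟨c, hc1, hc2⟩ := ih
      -- allowed values
      let S : Finset (Fin j → Fin M) := (univ.filter (fun ed => slot jj ed = y)).image pre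
      have hS : S ⊆ G j := by
        intro t ht
        obtain ⟨ed, -, rfl⟩ := mem_image.1 ht
        exact hI1 ed
      have hSd : S.card ≤ d := card_image_le.trans (hd jj y)
      have hA := hN.2 j hj S hS hSd
      set A : Finset (Fin M) := univ.filter (fun w : Fin M => ∀ e ∈ S,
        (Fin.snoc e w : Fin (j + 1) → Fin M) ∈ G (j + 1)) with hAdef
      -- forbidden values
      let load : V → Fin M → ℕ := fun v a => (univ.filter (fun w => sp w v ∧ slot jj (e w) ∈ Y' ∧
        c (slot jj (e w)) = a)).card
      let Fv : V → Finset (Fin M) := fun v => univ.filter (fun a => M1 ^ (β - nn v - 1) ≤ load v a)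
      let F : Finset (Fin M) :=
        (univ.filter (fun v => jj ∈ act v ∧ slot jj (e v) = y)).biUnion Fv
      have hFv : ∀ v, jj ∈ act v → (Fv v).card ≤ M1 := by
        intro v hv
        have hpos : 0 < M1 ^ (β - nn v - 1) := pow_pos (hM1 v hv) _
        have h1 : ∑ a ∈ Fv v, load v a ≤ M1 ^ (β - nn v) := by
          refine le_trans ?_ (hI2 v)
          rw [← card_biUnion]
          · apply card_le_card
            intro w hw
            obtain ⟨a, -, ha⟩ := mem_biUnion.1 hw
            simp only [mem_filter, mem_univ, true_and] at ha ⊢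
            exact ha.1
          · intro a _ a' _ haa
            rw [Function.onFun, disjoint_left]
            intro w hw hw'
            simp only [mem_filter, mem_univ, true_and] at hw hw'
            exact haa (hw.2.2.symm.trans hw'.2.2)
        have h2 : (Fv v).card * M1 ^ (β - nn v - 1) ≤ ∑ a ∈ Fv v, load v a := by
          rw [← smul_eq_mul]
          apply card_nsmul_le_sum
          intro a ha
          exact (mem_filter.1 ha).2
        have h3 : M1 ^ (β - nn v) = M1 * M1 ^ (β - nn v - 1) := by
          rw [← pow_succ']
          congr 1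
          have := hnn v hv
          omega
        rw [h3] at h1
        exact Nat.le_of_mul_le_mul_right (h2.trans h1) hpos
      have hF : F.card ≤ K * M1 := by
        refine card_biUnion_le.trans ?_
        refine (sum_le_card_nsmul _ _ M1 ?_).trans ?_
        · intro v hv
          exact hFv v (mem_filter.1 hv).2.1
        · rw [smul_eq_mul]
          exact Nat.mul_le_mul_right _ (hKc jj y)
      obtain ⟨a, haA, haF⟩ : ∃ a, a ∈ A ∧ a ∉ F := by
        by_contra hcon
        push Not at hcon
        have h1 : A.card ≤ F.card := card_le_card (fun a ha => hcon a ha)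
        have h2 : (A.card : ℝ) ≤ (K : ℝ) * M1 := by exact_mod_cast h1.trans hF
        linarith
      refine ⟨Function.update c y a, ?_, ?_⟩
      · intro ed hed
        by_cases h1 : slot jj ed = y
        · rw [h1, Function.update_self]
          have h2 : pre ed ∈ S := mem_image.2 ⟨ed, mem_filter.2 ⟨mem_univ _, h1⟩, rfl⟩
          exact (mem_filter.1 haA).2 _ h2
        · rw [Function.update_of_ne h1]
          exact hc1 ed ((mem_insert.1 hed).resolve_left h1)
      · intro v hv a'
        have hold := hc2 v hv a'
        by_cases hw0 : a' = a ∧ ∃ w0, sp w0 v ∧ slot jj (e w0) = y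
        · obtain ⟨rfl, w0, hw0, hw0y⟩ := hw0
          have hjw0 : jj ∈ act w0 := by rw [hw0.1]; exact hv
          -- load of v equals load of w0
          have hl : load v a' < M1 ^ (β - nn v - 1) := by
            have h1 : load w0 a' < M1 ^ (β - nn w0 - 1) := by
              by_contra hcon
              push Not at hcon
              apply haF
              exact mem_biUnion.2 ⟨w0, mem_filter.2 ⟨mem_univ _, hjw0, hw0y⟩,
                mem_filter.2 ⟨mem_univ _, hcon⟩⟩
            have h2 : load w0 a' = load v a' := by
              simp only [load]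
              congr 1
              ext w
              simp only [mem_filter, mem_univ, true_and]
              constructor
              · rintro ⟨h3, h4⟩; exact ⟨sp_trans h3 hw0, h4⟩
              · rintro ⟨h3, h4⟩; exact ⟨sp_trans h3 (sp_symm hw0), h4⟩
            rw [h2, nn_eq hw0.1] at h1
            exact h1
          have h5 : (univ.filter (fun w => sp w v ∧ slot jj (e w) ∈ insert y Y' ∧
              Function.update c y a' (slot jj (e w)) = a')) ⊆
              insert w0 (univ.filter (fun w => sp w v ∧ slot jj (e w) ∈ Y' ∧
                c (slot jj (e w)) = a')) := by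
            intro w hw
            simp only [mem_filter, mem_univ, true_and, mem_insert] at hw ⊢
            obtain ⟨hw1, hw2, hw3⟩ := hw
            by_cases h6 : slot jj (e w) = y
            · left
              by_contra h7
              refine hsl jj w w0 h7 (by rw [hw1.1]; exact hv) (hw1.1.trans hw0.1.symm) ?_
              rw [h6, hw0y]
            · right
              rw [Function.update_of_ne h6] at hw3
              exact ⟨hw1, hw2.resolve_left h6, hw3⟩
          refine (card_le_card h5).trans ((card_insert_le _ _).trans ?_)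
          exact hl
        · refine le_trans (card_le_card ?_) hold
          intro w hw
          simp only [mem_filter, mem_univ, true_and, mem_insert] at hw ⊢
          obtain ⟨hw1, hw2, hw3⟩ := hw
          by_cases h6 : slot jj (e w) = y
          · exfalso
            apply hw0
            rw [h6, Function.update_self] at hw3
            exact ⟨hw3.symm, w, hw1, h6⟩
          · rw [Function.update_of_ne h6] at hw3
            exact ⟨hw1, hw2.resolve_left h6, hw3⟩
  obtain ⟨c, hc1, hc2⟩ := inner univ
  refine ⟨Function.update b jj c, ?_, ?_⟩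
  · intro ed
    have h1 : (fun i : Fin (j + 1) => (Function.update b jj c) (Fin.castLE hj i)
        (slot (Fin.castLE hj i) ed)) = (Fin.snoc (pre ed) (c (slot jj ed)) : Fin (j + 1) → Fin M) := by
      funext i
      refine Fin.lastCases ?_ (fun i => ?_) i
      · have h2 : Fin.castLE hj (Fin.last j) = jj := Fin.ext rfl
        rw [h2, Function.update_self, Fin.snoc_last]
      · have h2 : Fin.castLE hj i.castSucc ≠ jj := by
          intro h3
          have h4 := congrArg Fin.val h3
          have := i.isLt
          simp [hjj] at h4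
          omega
        rw [Function.update_of_ne h2, Fin.snoc_castSucc]
        rfl
    rw [h1]
    exact hc1 ed (mem_univ _)
  · intro v
    by_cases hv : jj ∈ act v
    · have h1 := hc2 v hv (c (slot jj (e v)))
      rw [filter_succ (act v) j hj hv]
      have h2 : β - (((act v).filter (fun i => i.val < j)).card + 1) = β - nn v - 1 := by
        simp only [nn]; omega
      rw [h2]
      refine le_trans (card_le_card ?_) h1
      intro w hw
      simp only [mem_filter, mem_univ, true_and] at hw ⊢
      obtain ⟨hw1, hw2⟩ := hw
      refine ⟨⟨hw1, fun i hi hij => ?_⟩, ?_⟩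
      · have h3 := hw2 i hi (by omega)
        have h4 : i ≠ jj := by
          intro h5
          rw [h5] at hij
          simp [hjj] at hij
        rw [Function.update_of_ne h4] at h3
        exact h3
      · have h3 := hw2 jj hv (by simp [hjj])
        rw [Function.update_self] at h3
        exact h3
    · rw [filter_succ' (act v) j hj hv]
      refine le_trans (card_le_card ?_) (hI2 v)
      intro w hw
      simp only [mem_filter, mem_univ, true_and] at hw ⊢
      obtain ⟨hw1, hw2⟩ := hw
      refine ⟨hw1, fun i hi hij => ?_⟩
      have h3 := hw2 i hi (by omega)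
      have h4 : i ≠ jj := by
        intro h5
        exact hv (h5 ▸ hi)
      rw [Function.update_of_ne h4] at h3
      exact h3

theorem greedy : GreedyStmt := by
  intro l M d K M1 β κ G hN hK E Y V _ _ _ slot e act hd hact hV hKc hsl
  have hb0 : Nonempty (Fin l → Y → Fin M) := by
    by_cases hl : l = 0
    · subst hl
      exact ⟨fun i => i.elim0⟩
    · have h1 := hN.2 0 (by omega) ∅ (empty_subset _) (by simp)
      have h2 : (0 : ℝ) ≤ (K : ℝ) * M1 := by positivity
      have h3 : 0 < (univ.filter (fun w : Fin M => ∀ e ∈ (∅ : Finset (Fin 0 → Fin M)),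
          (Fin.snoc e w : Fin (0 + 1) → Fin M) ∈ G (0 + 1))).card := by
        have : (0 : ℝ) < ((univ.filter (fun w : Fin M => ∀ e ∈ (∅ : Finset (Fin 0 → Fin M)),
          (Fin.snoc e w : Fin (0 + 1) → Fin M) ∈ G (0 + 1))).card : ℝ) := by linarith
        exact_mod_cast this
      obtain ⟨w, -⟩ := card_pos.1 h3
      exact ⟨fun _ _ => w⟩
  have main : ∀ j (hj : j ≤ l), ∃ b : Fin l → Y → Fin M, Inv M1 β G slot e act j hj b := by
    intro j
    induction j with
    | zero =>
      intro hj
      obtain ⟨b⟩ := hb0
      refine ⟨b, fun ed => ?_, fun v => ?_⟩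
      · obtain ⟨t, ht⟩ := hN.1
        have : (fun i : Fin 0 => b (Fin.castLE hj i) (slot (Fin.castLE hj i) ed)) = t := by
          funext i; exact i.elim0
        rw [this]; exact ht
      · have h1 : ((act v).filter (fun i => i.val < 0)).card = 0 := by simp
        rw [h1, Nat.sub_zero]
        exact (card_le_univ _).trans hV
    | succ j ih =>
      intro hj
      obtain ⟨b, hb⟩ := ih (by omega)
      exact step hN hK E Y V slot e act hd hact hV hKc hsl j hj b hb
  obtain ⟨b, hb1, hb2⟩ := main l (le_refl l)
  refine ⟨b, fun ed => ?_, fun v w hvw hact' => ?_⟩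
  · exact hb1 ed
  · by_contra hcon
    push Not at hcon
    have h1 := hb2 v
    have h2 : (act v).filter (fun i => i.val < l) = act v := by
      apply filter_true_of_mem
      intro i _
      exact i.isLt
    rw [h2, hact v, Nat.sub_self, pow_zero] at h1
    have h3 : v ∈ univ.filter (fun w => act w = act v ∧ ∀ i ∈ act v, i.val < l →
      b i (slot i (e w)) = b i (slot i (e v))) := by
      simp
    have h4 : w ∈ univ.filter (fun w => act w = act v ∧ ∀ i ∈ act v, i.val < l →
      b i (slot i (e w)) = b i (slot i (e v))) := by
      simp only [mem_filter, mem_univ, true_and]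
      exact ⟨hact'.symm, fun i hi _ => (hcon i hi).symm⟩
    exact hvw (card_le_one.1 h1 v h3 w h4)

end Pool.Agent.Helper50.PU
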