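import Pool.Agent.Helper34.PU.Goals

set_option autoImplicit false

open Finset Function
open scoped Classical

namespace Pool.Agent.Helper50.PU

open Pool.Agent.Helper34.PU

/-- summing a function of `φ ∘ κ` -/
lemma sum_comp_inj {T0 T D : ℕ} (κ : Fin T0 → Fin T) (hκ : Injective κ) :
    ∃ B : ℕ, D ^ T = D ^ T0 * B ∧ ∀ G : (Fin T0 → Fin D) → ℝ,
      ∑ φ : Fin T → Fin D, G (fun i => φ (κ i)) = B * ∑ φ0 : Fin T0 → Fin D, G φ0 := by
  let p : Fin T → Prop := fun t => t ∈ Set.range κ
  let e := Equiv.piEquivPiSubtypeProd p (fun _ : Fin T => Fin D)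
  let ek : Fin T0 ≃ {t // p t} := Equiv.ofInjective κ hκ
  refine ⟨Fintype.card ({t // ¬ p t} → Fin D), ?_, fun G => ?_⟩
  · have h1 := Fintype.card_congr e
    rw [Fintype.card_prod] at h1
    have h2 : Fintype.card ({t // p t} → Fin D) = D ^ T0 := by
      rw [Fintype.card_fun, Fintype.card_fin, ← Fintype.card_congr ek, Fintype.card_fin]
    rw [h2, Fintype.card_fun, Fintype.card_fin, Fintype.card_fin] at h1
    exact h1
  · have h1 : ∑ φ : Fin T → Fin D, G (fun i => φ (κ i)) =
        ∑ ab : ({t // p t} → Fin D) × ({t // ¬ p t} → Fin D), G (fun i => ab.1 (ek i)) := by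
      apply Fintype.sum_equiv e
      intro φ
      rfl
    have h2 : ∑ a : {t // p t} → Fin D, G (fun i => a (ek i)) = ∑ φ0 : Fin T0 → Fin D, G φ0 := by
      apply Fintype.sum_equiv (Equiv.arrowCongr ek.symm (Equiv.refl (Fin D)))
      intro a
      congr 1
    rw [h1, Fintype.sum_prod_type, ← h2, Finset.mul_sum]
    apply Finset.sum_congr rfl
    intro a _
    simp

theorem numt : NumTStmt := by
  intro β s T0 r T D Q δ x f c κ q hs hD hCB hf hκ hq hδ
  have hD' : (0 : ℝ) < D := by exact_mod_cast hD
  -- the counting function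
  let t : (Fin T0 → Fin D) → ℝ := fun φ0 => ∑ y : Idx T0 β → Fin (D ^ (β + 1)),
    if IsTemplate s x f c κ q φ0 y then 1 else 0
  have ht0 : ∀ φ0, 0 ≤ t φ0 := fun φ0 => Finset.sum_nonneg (fun y _ => by split_ifs <;> norm_num)
  have hnum : (numT s x f c κ q : ℝ) = ∑ φ0, t φ0 := by
    unfold numT
    rw [Finset.card_filter]
    push_cast
    rw [Fintype.sum_prod_type]
  -- cells
  have hcell : ∀ (I : Idx T0 β) (φ : Pt T D), (D : ℝ) / 2 ≤ ((cell x (I.1.image κ) φ).card : ℝ) := by
    intro I φ
    have hc : (I.1.image κ).card = β := by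
      rw [Finset.card_image_of_injective _ hκ, I.2]
    have h1 := hCB (I.1.image κ) φ hc.le
    rw [hc] at h1
    have h2 : β + 1 - β = 1 := by omega
    rw [h2, pow_one] at h1
    have := (abs_le.1 h1).1
    linarith
  have hpt : ∀ φ : Pt T D,
      avg (Fintype.piFinset (fun I : Idx T0 β => cell x (I.1.image κ) φ)) (fun y =>
        ∏ P ∈ prs s q, if f (q P.1, y P.1) (q P.2, y P.2) = c then (1 : ℝ) else 0) ≤
      t (fun i => φ (κ i)) * (2 / D) ^ (Fintype.card (Idx T0 β)) := by
    intro φ
    unfold avg
    have h1 : (∑ y ∈ Fintype.piFinset (fun I : Idx T0 β => cell x (I.1.image κ) φ),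
        ∏ P ∈ prs s q, if f (q P.1, y P.1) (q P.2, y P.2) = c then (1 : ℝ) else 0) ≤
        t (fun i => φ (κ i)) := by
      refine le_trans (Finset.sum_le_sum (g := fun y =>
        if IsTemplate s x f c κ q (fun i => φ (κ i)) y then (1 : ℝ) else 0) ?_) ?_
      · intro y hy
        by_cases hall : ∀ P ∈ prs s q, f (q P.1, y P.1) (q P.2, y P.2) = c
        · have hT : IsTemplate s x f c κ q (fun i => φ (κ i)) y := by
            refine ⟨fun I j hj => ?_, fun I I' hII => ?_⟩
            · have h2 := Fintype.mem_piFinset.1 hy I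
              unfold cell at h2
              exact (Finset.mem_filter.1 h2).2 (κ j) (Finset.mem_image_of_mem κ hj)
            · have hne : I ≠ I' := by
                rintro rfl
                rw [Finset.inter_self, I.2] at hII
                omega
              rcases lt_trichotomy (q I) (q I') with hlt | heq | hgt
              · exact hall (I, I') (by
                  unfold prs
                  exact Finset.mem_filter.2 ⟨Finset.mem_univ _, hlt, hII⟩)
              · exact absurd (hq heq) hne
              · rw [hf]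
                exact hall (I', I) (by
                  unfold prs
                  refine Finset.mem_filter.2 ⟨Finset.mem_univ _, hgt, ?_⟩
                  rw [Finset.inter_comm]; exact hII)
          rw [if_pos hT, Finset.prod_congr rfl (fun P hP => if_pos (hall P hP))]
          simp
        · push Not at hall
          obtain ⟨P, hP, hne⟩ := hall
          rw [Finset.prod_eq_zero hP (if_neg hne)]
          split_ifs <;> norm_num
      · apply Finset.sum_le_sum_of_subset_of_nonneg (Finset.subset_univ _)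
        intro y _ _
        split_ifs <;> norm_num
    have h2 : ((D : ℝ) / 2) ^ (Fintype.card (Idx T0 β)) ≤
        ((Fintype.piFinset (fun I : Idx T0 β => cell x (I.1.image κ) φ)).card : ℝ) := by
      rw [Fintype.card_piFinset]
      push_cast
      have h3 : ((D : ℝ) / 2) ^ (Fintype.card (Idx T0 β)) = ∏ I : Idx T0 β, ((D : ℝ) / 2) := by
        rw [Finset.prod_const, Finset.card_univ]
      rw [h3]
      apply Finset.prod_le_prod
      · intro I _; positivity
      · intro I _; exact hcell I φ
    have h4 : (0 : ℝ) < ((D : ℝ) / 2) ^ (Fintype.card (Idx T0 β)) := by positivity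
    have h5 : (2 / (D : ℝ)) ^ (Fintype.card (Idx T0 β)) =
        (((D : ℝ) / 2) ^ (Fintype.card (Idx T0 β)))⁻¹ := by
      rw [← inv_pow, inv_div]
    rw [h5, ← div_eq_mul_inv]
    exact (div_le_div_of_nonneg_right h1 (h4.le.trans h2)).trans
      (div_le_div_of_nonneg_left (ht0 _) h4 h2)
  obtain ⟨B, hB1, hB2⟩ := sum_comp_inj (D := D) κ hκ
  have hBpos : (0 : ℝ) < B := by
    have : 0 < D ^ T0 * B := hB1 ▸ pow_pos hD T
    exact_mod_cast Nat.pos_of_mul_pos_left this
  have hdens : Dens s x f c κ q ≤
      (∑ φ0, t φ0) / (D : ℝ) ^ T0 * (2 / D) ^ (Fintype.card (Idx T0 β)) := by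
    unfold Dens
    have h1 : avg (univ : Finset (Pt T D)) (fun φ : Pt T D =>
        avg (Fintype.piFinset (fun I : Idx T0 β => cell x (I.1.image κ) φ)) (fun y =>
          ∏ P ∈ prs s q, if f (q P.1, y P.1) (q P.2, y P.2) = c then (1 : ℝ) else 0)) ≤
        avg (univ : Finset (Pt T D)) (fun φ : Pt T D =>
          t (fun i => φ (κ i)) * (2 / D) ^ (Fintype.card (Idx T0 β))) := by
      unfold avg
      apply div_le_div_of_nonneg_right _ (by positivity)
      exact Finset.sum_le_sum (fun φ _ => hpt φ)
    refine h1.trans (le_of_eq ?_)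
    unfold avg
    rw [← Finset.sum_mul, hB2 t]
    have h2 : ((univ : Finset (Pt T D)).card : ℝ) = (D : ℝ) ^ T0 * B := by
      rw [Finset.card_univ, Fintype.card_fun, Fintype.card_fin, Fintype.card_fin, hB1]
      push_cast
      ring
    rw [h2]
    field_simp
  have h6 : δ ≤ (numT s x f c κ q : ℝ) / (D : ℝ) ^ T0 * (2 / D) ^ (Fintype.card (Idx T0 β)) := by
    rw [hnum]
    exact hδ.trans hdens
  have h7 : (numT s x f c κ q : ℝ) / (D : ℝ) ^ T0 * (2 / D) ^ (Fintype.card (Idx T0 β)) =
      (numT s x f c κ q : ℝ) * 2 ^ (Fintype.card (Idx T0 β)) /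
        (D : ℝ) ^ (T0 + Fintype.card (Idx T0 β)) := by
    generalize (numT s x f c κ q : ℝ) = z
    rw [div_pow, pow_add (D : ℝ)]
    field_simp
  rw [h7, le_div_iff₀ (by positivity)] at h6
  rw [div_mul_eq_mul_div, div_le_iff₀ (by positivity)]
  exact h6

end Pool.Agent.Helper50.PU
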